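import Pool.Agent.Lib.MP_deef39_co_PW.Final

/-! # MP_deef39_co: at most three deep pinwheel centres

`FPW.Centre p Set.univ y`: the point `y` is the centre of a pinwheel of pairwise non-crossing
segments spanned by the point set. The vertices of the first two convex layers are never
pinwheel centres (`FPW.not_centre_of_ext`, `FPW.not_centre_of_ext2`); so it suffices to count the
centres among the points inside the second convex layer, and the theorem contains every point set
with at most three points inside its second convex layer.
-/

set_option autoImplicit false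

namespace Pool.Agent.Results.MP_deef39_co.FewPinwheelCentres

open FPW

/-- `y` belongs neither to the first nor to the second convex layer of the point family `p`:
`p y` lies in the convex hull of the other points (`¬ Ext p Set.univ y`), and in the convex hull
of the other points which have this property -/
def Deep {α : Type*} (p : α → ℝ × ℝ) (y : α) : Prop :=
  ¬ Ext p Set.univ y ∧ ¬ Ext p {t | ¬ Ext p Set.univ t} y

theorem result (n : ℕ) (p : Fin n → ℝ × ℝ) (hi : Function.Injective p)
    (hc : ∀ i j k : Fin n, i ≠ j → j ≠ k → i ≠ k →
      ¬ Collinear ℝ ({p i, p j, p k} : Set (ℝ × ℝ)))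
    (hZ : {y : Fin n | Deep p y ∧ Centre p Set.univ y}.ncard ≤ 3) :
    ∀ P : SimpleGraph (Fin n) → Prop,
      (∀ A : SimpleGraph (Fin n), P A ↔
        (A.IsTree ∧ (∀ v : Fin n, (A.neighborSet v).ncard ≤ 2) ∧
          ∀ a b c d : Fin n, A.Adj a b → A.Adj c d → s(a, b) ≠ s(c, d) →
            ∀ x : ℝ × ℝ, x ∈ segment ℝ (p a) (p b) → x ∈ segment ℝ (p c) (p d) →
              (x = p a ∨ x = p b) ∧ (x = p c ∨ x = p d))) →
      ∀ G H : SimpleGraph (Fin n), P G → P H →
        Relation.ReflTransGen
          (fun A B : SimpleGraph (Fin n) =>
            P A ∧ P B ∧ (A.edgeSet \ B.edgeSet).ncard = 1 ∧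
              (B.edgeSet \ A.edgeSet).ncard = 1)
          G H := by
  apply conn_graph n p hi hc
  have he : {y : Fin n | Centre p Set.univ y} =
      {y : Fin n | Deep p y ∧ Centre p Set.univ y} := by
    ext y
    exact ⟨fun hy => ⟨⟨fun h => not_centre_of_ext h hy, fun h => not_centre_of_ext2 h hy⟩, hy⟩,
      fun hy => hy.2⟩
  rw [he]
  exact hZ

end Pool.Agent.Results.MP_deef39_co.FewPinwheelCentres
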