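import Pool.Agent.Lib.MP_deef39_co_IP.Main
import Pool.Agent.Lib.MP_deef39_co_PG.PathV

/-! # MP_deef39_co: the plane spanning paths inscribed in a polygon or in a path

Part 1. The points `p 0, p 1, ..., p (n - 1)` are the vertices of a simple polygon in this order.
A plane spanning path is inscribed if no edge of it crosses a side of the polygon and no two edges
of it interleave in the cyclic order `0, 1, ..., n - 1` (for instance if it lies in the closed
polygon). Any two inscribed paths are joined by at most `2 n - 5` flips through inscribed paths;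
if they have a common end `u`, also by at most `2 n - 5` flips through inscribed paths with the
end `u`.

Proof (library files `MP_deef39_co_IP/Comb`, `MP_deef39_co_IP/Main`): the last vertex `z` of an
inscribed path has a neighbour `y` on the polygon which is not its neighbour on the path. If the
path is not the polygon minus one side then the path edge from `y` towards `z` is not a side
(`FIP.key`), so the flip which replaces it by the side `y z` lowers the number of edges which are
not sides; the first and the last edge of the path are sides.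

Part 2. The path `P` with the vertices `p 0, p 1, ..., p (n - 1)` in this order is a plane
spanning path (the segment from `p (n - 1)` to `p 0` may cross anything). If `G` is a plane
spanning path, no edge of `G` crosses an edge of `P` and no two edges of `G` interleave, then the
flip distance of `G` and `P` is the number of edges of `G` which are not in `P`, and it is
realised through such paths with edges in `G` and `P`; if `p 0` is an end of `G`, it stays one.

Proof (library files `MP_deef39_co_PG`): as before; the segment from `p (n - 1)` to `p 0` is not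
needed for the flips at both ends of `G`, so one of the two ends can be moved.
-/

set_option autoImplicit false

namespace Pool.Agent.Results.MP_deef39_co.InscribedPaths

open FPW

/-- `i` and `j` are consecutive in the cyclic order `0, 1, ..., n - 1` -/
def Side {n : ℕ} (i j : Fin n) : Prop :=
  i.val + 1 = j.val ∨ j.val + 1 = i.val ∨ (i.val = 0 ∧ j.val + 1 = n) ∨
    (j.val = 0 ∧ i.val + 1 = n)

/-- `c` lies strictly between `a` and `b` in the order `0, 1, ..., n - 1` -/
def Btw {n : ℕ} (a b c : Fin n) : Prop :=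
  (a.val < c.val ∧ c.val < b.val) ∨ (b.val < c.val ∧ c.val < a.val)

/-- the segments `ab` and `cd` are equal or meet at most in common end points -/
def Clean {n : ℕ} (p : Fin n → ℝ × ℝ) (a b c d : Fin n) : Prop :=
  s(a, b) ≠ s(c, d) → ∀ x : ℝ × ℝ, x ∈ segment ℝ (p a) (p b) → x ∈ segment ℝ (p c) (p d) →
    (x = p a ∨ x = p b) ∧ (x = p c ∨ x = p d)

/-- `A` is a plane spanning path on the points `p` -/
def PlanePath {n : ℕ} (p : Fin n → ℝ × ℝ) (A : SimpleGraph (Fin n)) : Prop :=
  A.IsTree ∧ (∀ v : Fin n, (A.neighborSet v).ncard ≤ 2) ∧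
    ∀ a b c d : Fin n, A.Adj a b → A.Adj c d → Clean p a b c d

/-- the points `p 0, ..., p (n - 1)` are the vertices of a simple polygon in this order -/
def Polygon {n : ℕ} (p : Fin n → ℝ × ℝ) : Prop :=
  ∀ a b c d : Fin n, Side a b → Side c d → Clean p a b c d

/-- no edge of `A` crosses a side of the polygon, and no two edges of `A` interleave in the
cyclic order `0, 1, ..., n - 1` -/
def Inscribed {n : ℕ} (p : Fin n → ℝ × ℝ) (A : SimpleGraph (Fin n)) : Prop :=
  (∀ a b c d : Fin n, A.Adj a b → Side c d → Clean p a b c d) ∧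
    ∀ a b c d : Fin n, A.Adj a b → A.Adj c d → Btw a b c → d ≠ a → d ≠ b → Btw a b d

/-- `A` is an inscribed plane spanning path -/
def InPath {n : ℕ} (p : Fin n → ℝ × ℝ) (A : SimpleGraph (Fin n)) : Prop :=
  PlanePath p A ∧ Inscribed p A

/-- `B` is obtained from `A` by deleting one edge and inserting another one -/
def Exch {n : ℕ} (A B : SimpleGraph (Fin n)) : Prop :=
  (A.edgeSet \ B.edgeSet).ncard = 1 ∧ (B.edgeSet \ A.edgeSet).ncard = 1

/-- `u` has at most one neighbour in `A`; for a spanning path `A` on at least 3 vertices: `u` is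
an end of `A` -/
def End {n : ℕ} (u : Fin n) (A : SimpleGraph (Fin n)) : Prop :=
  (A.neighborSet u).ncard ≤ 1

/-- a flip of inscribed plane spanning paths -/
def Flip {n : ℕ} (p : Fin n → ℝ × ℝ) (A B : SimpleGraph (Fin n)) : Prop :=
  InPath p A ∧ InPath p B ∧ Exch A B

/-- a flip of inscribed plane spanning paths with the end `u` -/
def FlipAt {n : ℕ} (p : Fin n → ℝ × ℝ) (u : Fin n) (A B : SimpleGraph (Fin n)) : Prop :=
  Flip p A B ∧ End u A ∧ End u B

/-- `A` is a plane spanning path, no edge of `A` crosses an edge of the path with the vertices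
`p 0, ..., p (n - 1)` in this order, and no two edges of `A` interleave in the order
`0, 1, ..., n - 1` -/
def Compat {n : ℕ} (p : Fin n → ℝ × ℝ) (A : SimpleGraph (Fin n)) : Prop :=
  PlanePath p A ∧
    (∀ a b c d : Fin n, A.Adj a b → (SimpleGraph.pathGraph n).Adj c d → Clean p a b c d) ∧
      ∀ a b c d : Fin n, A.Adj a b → A.Adj c d → Btw a b c → d ≠ a → d ≠ b → Btw a b d

/-- a flip of compatible paths, with edges in `G` and in the path `p 0, ..., p (n - 1)` -/
def FlipC {n : ℕ} (p : Fin n → ℝ × ℝ) (G A B : SimpleGraph (Fin n)) : Prop :=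
  (Compat p A ∧ A.edgeSet ⊆ G.edgeSet ∪ (SimpleGraph.pathGraph n).edgeSet) ∧
    (Compat p B ∧ B.edgeSet ⊆ G.edgeSet ∪ (SimpleGraph.pathGraph n).edgeSet) ∧ Exch A B

/-- there is a chain of `k` steps of the relation `R` from `a` to `b` -/
def Steps {α : Type*} (R : α → α → Prop) : ℕ → α → α → Prop
  | 0, a, b => a = b
  | k + 1, a, b => ∃ c, R a c ∧ Steps R k c b

theorem steps_iff {α : Type*} {R : α → α → Prop} {k : ℕ} {a b : α} :
    Steps R k a b ↔ FIP.Steps R k a b := by
  induction k generalizing a with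
  | zero => exact Iff.rfl
  | succ k ih =>
    constructor
    · rintro ⟨c, h1, h2⟩
      exact ⟨c, h1, ih.1 h2⟩
    · rintro ⟨c, h1, h2⟩
      exact ⟨c, h1, ih.2 h2⟩

section

variable {n : ℕ} {p : Fin n → ℝ × ℝ}

theorem not_X (hgp : GP p) {a b c d : Fin n} (h1 : a ≠ b) (h2 : c ≠ d)
    (h : Clean p a b c d) : ¬ X p a b c d := by
  intro hX
  by_cases hs : s(a, b) = s(c, d)
  · have h3 := X_ne hX
    rcases Sym2.eq_iff.1 hs with ⟨h4, _⟩ | ⟨h4, _⟩
    · exact h3.2.2.1 h4
    · exact h3.2.2.2.1 h4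
  · exact (seg_iff hgp h1 h2 hs).1 (h hs) hX

theorem clean_of (hgp : GP p) {a b c d : Fin n} (h1 : a ≠ b) (h2 : c ≠ d)
    (h : ¬ X p a b c d) : Clean p a b c d := fun hs => (seg_iff hgp h1 h2 hs).2 h

/-- the list form of an inscribed plane spanning path -/
structure LP (p : Fin n → ℝ × ℝ) (l : List (Fin n)) : Prop where
  ip : FIP.IP l
  nx : ∀ a b c d, (Ed l a b ∨ FIP.Side a b) → (Ed l c d ∨ FIP.Side c d) → ¬ X p a b c d

theorem inPath_gr (hn : 3 ≤ n) (hgp : GP p) {l : List (Fin n)} (h : LP p l) :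
    InPath p (gr l) := by
  have hne : l ≠ [] := by
    rintro rfl
    have := FIP.ip_length h.ip
    simp at this
    omega
  refine ⟨⟨gr_tree h.ip.nodup hne h.ip.full, gr_deg h.ip.nodup, ?_⟩, ?_, ?_⟩
  · intro a b c d hab hcd
    exact clean_of hgp hab.ne hcd.ne (h.nx a b c d (Or.inl hab.2) (Or.inl hcd.2))
  · intro a b c d hab hcd
    exact clean_of hgp hab.ne (FIP.side_ne hn hcd) (h.nx a b c d (Or.inl hab.2) (Or.inr hcd))
  · intro a b c d hab hcd hb hda hdb
    exact h.ip.ni a b c d hab.2 hcd.2 hb hda hdb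

theorem end_gr {u : Fin n} {m : List (Fin n)} (h : (u :: m).Nodup) : End u (gr (u :: m)) := by
  have hu : u ∉ m := (List.nodup_cons.1 h).1
  unfold End
  rw [Set.ncard_le_one (Set.toFinite _)]
  intro a ha b hb
  have key : ∀ t, Ed (u :: m) u t → m.head? = some t := by
    intro t ht
    cases m with
    | nil => exact ht.elim
    | cons c m =>
      rcases ht with ⟨_, h2⟩ | ⟨h1, _⟩ | h1
      · rw [h2]; rfl
      · exact absurd (by rw [h1]; simp) hu
      · exact absurd (ed_mem h1) hu
  have h1 := key a ha.2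
  have h2 := key b hb.2
  rw [h1] at h2
  exact Option.some.inj h2

theorem toCycle (hn : 3 ≤ n) (hgp : GP p) {u : Fin n} : ∀ (k : ℕ) (l : List (Fin n)),
    FIP.nc l = k → LP p l → l.head? = some u → ∃ l', LP p l' ∧ FIP.nc l' = 0 ∧
      l'.head? = some u ∧ ∃ j ≤ k, FIP.Steps (FlipAt p u) j (gr l) (gr l') := by
  intro k
  induction k with
  | zero => exact fun l hk h hu => ⟨l, h, hk, hu, 0, le_rfl, rfl⟩
  | succ k ih =>
    intro l hk h hu
    obtain ⟨l', v, z, hrot, hip, hnc, hed⟩ := FIP.step hn h.ip (by omega)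
    have h' : LP p l' := by
      refine ⟨hip, fun a b c d hab hcd => h.nx a b c d ?_ ?_⟩
      · rcases hab with h1 | h1
        · exact hed a b h1
        · exact Or.inr h1
      · rcases hcd with h1 | h1
        · exact hed c d h1
        · exact Or.inr h1
    have hu' : l'.head? = some u := by
      obtain ⟨A, B, h5, h6⟩ := id hrot
      rw [h6]
      rw [h5] at hu
      cases A with
      | nil => exact hu
      | cons a A => exact hu
    have hend : ∀ m : List (Fin n), m.Nodup → m.head? = some u → End u (gr m) := by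
      intro m hm hh
      cases m with
      | nil => simp at hh
      | cons a m =>
        have h7 : a = u := by simpa using hh
        subst h7
        exact end_gr hm
    obtain ⟨l1, h1, h2, hu1, j, hj, hs⟩ := ih l' (by omega) h' hu'
    rcases gr_rot h.ip.nodup hrot with h3 | ⟨h3, h4⟩
    · rw [h3] at hs
      exact ⟨l1, h1, h2, hu1, j, by omega, hs⟩
    · exact ⟨l1, h1, h2, hu1, j + 1, by omega, gr l',
        ⟨⟨inPath_gr hn hgp h, inPath_gr hn hgp h', h3, h4⟩, hend l h.ip.nodup hu,
          hend l' hip.nodup hu'⟩, hs⟩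

theorem card_edges {A : SimpleGraph (Fin n)} (h : A.IsTree) : A.edgeSet.ncard + 1 = n := by
  have h1 := (SimpleGraph.isTree_iff_connected_and_card.1 h).2
  rw [Nat.card_coe_set_eq, Nat.card_eq_fintype_card, Fintype.card_fin] at h1
  exact h1

/-- two paths all of whose edges are sides are equal or differ by a flip -/
theorem side_paths (hn : 3 ≤ n) {A B : SimpleGraph (Fin n)} (hA : InPath p A)
    (hB : InPath p B) (hA' : ∀ a b, A.Adj a b → FIP.Side a b)
    (hB' : ∀ a b, B.Adj a b → FIP.Side a b) : A = B ∨ Flip p A B := by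
  classical
  obtain ⟨f, hf⟩ : ∃ f : Fin n → Sym2 (Fin n),
      ∀ i : Fin n, f i = s(i, ⟨(i.val + 1) % n, Nat.mod_lt _ (by omega)⟩) := ⟨_, fun _ => rfl⟩
  have hsub : ∀ a b : Fin n, FIP.Side a b → s(a, b) ∈ Set.range f := by
    intro a b hab
    have ha := a.isLt
    have hb := b.isLt
    have key : ∀ i j : Fin n, (i.val + 1 = j.val ∨ (j.val = 0 ∧ i.val + 1 = n)) →
        f i = s(i, j) := by
      intro i j hij
      rw [hf]
      have h1 : (⟨(i.val + 1) % n, Nat.mod_lt _ (by omega)⟩ : Fin n) = j := by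
        apply Fin.ext
        show (i.val + 1) % n = j.val
        rcases hij with h2 | ⟨h2, h3⟩
        · rw [h2, Nat.mod_eq_of_lt j.isLt]
        · rw [h3, Nat.mod_self, h2]
      rw [h1]
    rcases hab with h | h | h | h
    · exact ⟨a, key a b (Or.inl h)⟩
    · exact ⟨b, by rw [key b a (Or.inl h)]; exact Sym2.eq_swap⟩
    · exact ⟨b, by rw [key b a (Or.inr h)]; exact Sym2.eq_swap⟩
    · exact ⟨a, key a b (Or.inr h)⟩
  have hAs : A.edgeSet ⊆ Set.range f := by
    intro e
    induction e using Sym2.ind with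
    | _ x y => exact fun h => hsub x y (hA' x y h)
  have hBs : B.edgeSet ⊆ Set.range f := by
    intro e
    induction e using Sym2.ind with
    | _ x y => exact fun h => hsub x y (hB' x y h)
  have hcard : (Set.range f).ncard ≤ n := by
    have h1 := Set.ncard_image_le (f := f) (s := Set.univ) Set.finite_univ
    rw [Set.image_univ, Set.ncard_univ, Nat.card_eq_fintype_card, Fintype.card_fin] at h1
    exact h1
  have cA := card_edges hA.1.1
  have cB := card_edges hB.1.1
  have u1 := Set.ncard_sdiff_add_ncard A.edgeSet B.edgeSet (Set.toFinite _) (Set.toFinite _)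
  have u2 := Set.ncard_sdiff_add_ncard B.edgeSet A.edgeSet (Set.toFinite _) (Set.toFinite _)
  have u3 := Set.ncard_le_ncard (Set.union_subset hAs hBs) (Set.toFinite _)
  have u4 := Set.ncard_le_ncard (Set.union_subset hBs hAs) (Set.toFinite _)
  by_cases h0 : (A.edgeSet \ B.edgeSet).ncard = 0
  · left
    have h1 : (A.edgeSet \ B.edgeSet) = ∅ := (Set.ncard_eq_zero (Set.toFinite _)).1 h0
    have h2 : A.edgeSet ⊆ B.edgeSet := Set.sdiff_eq_empty.1 h1
    have h3 := Set.eq_of_subset_of_ncard_le h2 (by omega) (Set.toFinite _)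
    exact SimpleGraph.edgeSet_inj.1 h3
  · right
    have h1 : (A.edgeSet ∪ B.edgeSet).ncard = (B.edgeSet ∪ A.edgeSet).ncard := by
      rw [Set.union_comm]
    exact ⟨hA, hB, by omega, by omega⟩

theorem list_of (hn : 3 ≤ n) (hgp : GP p) (hR : Polygon p) {A : SimpleGraph (Fin n)}
    (hA : InPath p A) : ∃ l : List (Fin n), LP p l ∧ A = gr l := by
  obtain ⟨hA, hA'⟩ := hA
  obtain ⟨l, hl1, hl2, hl3⟩ := tree_list A hA.1 hA.2.1
  have hside : ∀ {a b : Fin n}, FIP.Side a b → a ≠ b := fun h => FIP.side_ne hn h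
  refine ⟨l, ⟨⟨hl1, hl2, ?_⟩, ?_⟩, ?_⟩
  · intro a b c d hab hcd hb hda hdb
    exact hA'.2 a b c d ((hl3 a b).2 hab) ((hl3 c d).2 hcd) hb hda hdb
  · intro a b c d hab hcd
    rcases hab with hab | hab
    · have h1 := (hl3 a b).2 hab
      rcases hcd with hcd | hcd
      · have h2 := (hl3 c d).2 hcd
        exact not_X hgp h1.ne h2.ne (hA.2.2 a b c d h1 h2)
      · exact not_X hgp h1.ne (hside hcd) (hA'.1 a b c d h1 hcd)
    · rcases hcd with hcd | hcd
      · have h2 := (hl3 c d).2 hcd
        intro hX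
        exact not_X hgp h2.ne (hside hab) (hA'.1 c d a b h2 hab) (X_comm.1 hX)
      · exact not_X hgp (hside hab) (hside hcd) (hR a b c d hab hcd)
  · ext x y
    rw [gr_adj hl1, hl3]

theorem lp_reverse {l : List (Fin n)} (h : LP p l) : LP p l.reverse := by
  refine ⟨⟨List.nodup_reverse.2 h.ip.nodup, fun v => List.mem_reverse.2 (h.ip.full v), ?_⟩, ?_⟩
  · intro a b c d hab hcd
    exact h.ip.ni a b c d (ed_reverse.1 hab) (ed_reverse.1 hcd)
  · intro a b c d hab hcd
    exact h.nx a b c d (hab.imp_left ed_reverse.1) (hcd.imp_left ed_reverse.1)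

/-- a path with the end `u`, as a list which starts with `u` -/
theorem list_at {u : Fin n} {l : List (Fin n)} (h : LP p l) (hu : End u (gr l)) :
    ∃ m, LP p m ∧ gr m = gr l ∧ m.head? = some u := by
  obtain ⟨A, B, hl⟩ := List.append_of_mem (h.ip.full u)
  cases A with
  | nil => exact ⟨l, h, rfl, by rw [hl]; rfl⟩
  | cons a0 A =>
    rcases List.eq_nil_or_concat (a0 :: A) with h0 | ⟨A', a, hA'⟩
    · exact absurd h0 (List.cons_ne_nil _ _)
    · rw [List.concat_eq_append] at hA'
      cases B with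
      | nil =>
        refine ⟨l.reverse, lp_reverse h, gr_reverse l, ?_⟩
        rw [hl]; simp
      | cons b B =>
        exfalso
        have hl2 : l = A' ++ a :: u :: b :: B := by rw [hl, hA']; simp
        have hn := h.ip.nodup
        have e1 : Ed l u a := by rw [hl2]; exact ed_of_split'
        have e2 : Ed l u b := by
          have h3 : l = (A' ++ [a]) ++ u :: b :: B := by rw [hl2]; simp
          rw [h3]; exact ed_of_split
        have hab : a ≠ b := by
          rintro rfl
          rw [hl2] at hn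
          have h4 := (List.nodup_append.1 hn).2.1
          simp at h4
        unfold End at hu
        rw [Set.ncard_le_one (Set.toFinite _)] at hu
        exact hab (hu a ((gr_adj hn).2 e1) b ((gr_adj hn).2 e2))

theorem steps_mono {α : Type*} {R R' : α → α → Prop} (hR : ∀ a b, R a b → R' a b) {k : ℕ}
    {a b : α} (h : FIP.Steps R k a b) : FIP.Steps R' k a b := by
  induction k generalizing a with
  | zero => exact h
  | succ k ih =>
    obtain ⟨c, h1, h2⟩ := h
    exact ⟨c, hR _ _ h1, ih h2⟩

/-- an all-side path reached from a list which starts with `u` -/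
theorem reach_side (hn : 3 ≤ n) (hgp : GP p) {u : Fin n} {l : List (Fin n)} (h : LP p l)
    (hu : l.head? = some u) : ∃ A : SimpleGraph (Fin n), InPath p A ∧ End u A ∧
      (∀ a b, A.Adj a b → FIP.Side a b) ∧ ∃ j ≤ n - 3, FIP.Steps (FlipAt p u) j (gr l) A := by
  obtain ⟨l1, h1, h2, h3, j, hj, hs⟩ := toCycle hn hgp _ l rfl h hu
  have hb := FIP.nc_bound hn h.ip
  refine ⟨gr l1, inPath_gr hn hgp h1, ?_, fun a b hab => FIP.side_of_nc h2 a b hab.2, j,
    by omega, hs⟩
  have hnd := h1.ip.nodup
  cases l1 with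
  | nil => simp at h3
  | cons a m =>
    have h7 : a = u := by simpa using h3
    subst h7
    exact end_gr hnd

end

theorem part1 (n : ℕ) (hn : 3 ≤ n) (p : Fin n → ℝ × ℝ) (hi : Function.Injective p)
    (hc : ∀ i j k : Fin n, i ≠ j → j ≠ k → i ≠ k →
      ¬ Collinear ℝ ({p i, p j, p k} : Set (ℝ × ℝ)))
    (hR : Polygon p) (G H : SimpleGraph (Fin n)) (hG : InPath p G) (hH : InPath p H) :
    (∃ k ≤ 2 * n - 5, Steps (Flip p) k G H) ∧
      ∀ u : Fin n, End u G → End u H → ∃ k ≤ 2 * n - 5, Steps (FlipAt p u) k G H := by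
  have hgp : GP p := gp_of hi hc
  obtain ⟨l, hl, rfl⟩ := list_of hn hgp hR hG
  obtain ⟨m, hm, rfl⟩ := list_of hn hgp hR hH
  have hsym : ∀ A B, Flip p A B → Flip p B A :=
    fun A B h => ⟨h.2.1, h.1, h.2.2.2, h.2.2.1⟩
  have hsymA : ∀ u A B, FlipAt p u A B → FlipAt p u B A :=
    fun u A B h => ⟨hsym _ _ h.1, h.2.2, h.2.1⟩
  constructor
  · have hne : ∀ l : List (Fin n), LP p l → ∃ u, l.head? = some u := by
      intro l hl
      cases l with
      | nil =>
        have := FIP.ip_length hl.ip
        simp at this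
        omega
      | cons a l => exact ⟨a, rfl⟩
    obtain ⟨u, hu⟩ := hne l hl
    obtain ⟨v, hv⟩ := hne m hm
    obtain ⟨A, hA1, _, hA3, j1, hj1, hs1⟩ := reach_side hn hgp hl hu
    obtain ⟨B, hB1, _, hB3, j2, hj2, hs2⟩ := reach_side hn hgp hm hv
    have hs1' := steps_mono (R' := Flip p) (fun _ _ h => h.1) hs1
    have hs2' := FIP.steps_symm hsym (steps_mono (R' := Flip p) (fun _ _ h => h.1) hs2)
    rcases side_paths hn hA1 hB1 hA3 hB3 with h5 | h5
    · rw [← h5] at hs2'
      exact ⟨j1 + j2, by omega, steps_iff.2 (FIP.steps_trans hs1' hs2')⟩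
    · exact ⟨j1 + (j2 + 1), by omega, steps_iff.2 (FIP.steps_trans hs1' ⟨_, h5, hs2'⟩)⟩
  · intro u hu1 hu2
    obtain ⟨l1, hl1, hg1, hh1⟩ := list_at hl hu1
    obtain ⟨m1, hm1, hg2, hh2⟩ := list_at hm hu2
    rw [← hg1, ← hg2]
    obtain ⟨A, hA1, hA2, hA3, j1, hj1, hs1⟩ := reach_side hn hgp hl1 hh1
    obtain ⟨B, hB1, hB2, hB3, j2, hj2, hs2⟩ := reach_side hn hgp hm1 hh2
    have hs2' := FIP.steps_symm (hsymA u) hs2
    rcases side_paths hn hA1 hB1 hA3 hB3 with h5 | h5
    · rw [← h5] at hs2'
      exact ⟨j1 + j2, by omega, steps_iff.2 (FIP.steps_trans hs1 hs2')⟩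
    · exact ⟨j1 + (j2 + 1), by omega,
        steps_iff.2 (FIP.steps_trans hs1 ⟨_, ⟨h5, hA2, hB2⟩, hs2'⟩)⟩

theorem noInter_iff {n : ℕ} (A : SimpleGraph (Fin n)) : FPG.NoInter A ↔
    ∀ a b c d : Fin n, A.Adj a b → A.Adj c d → Btw a b c → d ≠ a → d ≠ b → Btw a b d := by
  constructor
  · intro h a b c d hab hcd hb hda hdb
    have h1 := h a b c d hab hcd
    have h2 := h d c b a hcd.symm hab.symm
    have h3 := h b a c d hab.symm hcd
    have h4 := h d c a b hcd.symm hab
    have h5 : d.val ≠ a.val := fun h6 => hda (Fin.ext h6)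
    have h6 : d.val ≠ b.val := fun h7 => hdb (Fin.ext h7)
    unfold Btw at hb ⊢
    rw [Fin.lt_def, Fin.lt_def, Fin.lt_def] at h1 h2 h3 h4
    omega
  · rintro h a b c d hab hcd ⟨h1, h2, h3⟩
    rw [Fin.lt_def] at h1 h2 h3
    have h4 := h a b c d hab hcd (Or.inl ⟨h1, h2⟩) (fun h5 => by rw [h5] at h3; omega)
      (fun h5 => by rw [h5] at h3; omega)
    unfold Btw at h4
    omega

theorem compat_iff {n : ℕ} {p : Fin n → ℝ × ℝ} (A : SimpleGraph (Fin n)) :
    Compat p A ↔ FPG.Fits p A :=
  ⟨fun h => ⟨h.1, h.2.1, (noInter_iff A).2 h.2.2⟩, fun h => ⟨h.1, h.2.1, (noInter_iff A).1 h.2.2⟩⟩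

theorem steps_of_walk {n : ℕ} {Q : SimpleGraph (Fin n) → Prop}
    {R : SimpleGraph (Fin n) → SimpleGraph (Fin n) → Prop}
    (hR : ∀ A B, Q A → Q B → Exch A B → R A B) :
    ∀ {k : ℕ} {A B : SimpleGraph (Fin n)}, FPG.Walk Q k A B → Steps R k A B := by
  intro k
  induction k with
  | zero =>
    rintro A B ⟨F, h0, h1, -, -⟩
    exact h0.symm.trans h1
  | succ k ih =>
    rintro A B ⟨F, h0, h1, h2, h3⟩
    refine ⟨F 1, ?_, ih ⟨fun i => F (i + 1), rfl, h1, fun i hi => h2 (i + 1) (by omega),
      fun i hi => h3 (i + 1) (by omega)⟩⟩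
    have h4 := h3 0 (by omega)
    rw [h0] at h4
    have h5 := h2 0 (by omega)
    rw [h0] at h5
    exact hR A (F 1) h5 (h2 1 (by omega)) h4

theorem exch_ge {n : ℕ} : ∀ {k : ℕ} {A B : SimpleGraph (Fin n)}, Steps Exch k A B →
    (A.edgeSet \ B.edgeSet).ncard ≤ k := by
  intro k
  induction k with
  | zero =>
    intro A B h
    have h1 : A = B := h
    rw [h1, Set.sdiff_self, Set.ncard_empty]
  | succ k ih =>
    rintro A B ⟨C, h1, h2⟩
    have h3 := ih h2
    have h4 : A.edgeSet \ B.edgeSet ⊆
        (A.edgeSet \ C.edgeSet) ∪ (C.edgeSet \ B.edgeSet) := by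
      intro e he
      by_cases h5 : e ∈ C.edgeSet
      · exact Or.inr ⟨h5, he.2⟩
      · exact Or.inl ⟨he.1, h5⟩
    have h5 := Set.ncard_le_ncard h4 (Set.toFinite _)
    have h6 := Set.ncard_union_le (A.edgeSet \ C.edgeSet) (C.edgeSet \ B.edgeSet)
    have h7 := h1.1
    omega

/-- Part 1: any two inscribed plane spanning paths are joined by at most `2 n - 5` flips of
inscribed paths, and if they have a common end then the flips can be chosen to keep this end.
Part 2: the exact flip distance of a compatible path to the path `p 0, ..., p (n - 1)`. -/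
theorem result (n : ℕ) (hn : 3 ≤ n) (p : Fin n → ℝ × ℝ) (hi : Function.Injective p)
    (hc : ∀ i j k : Fin n, i ≠ j → j ≠ k → i ≠ k →
      ¬ Collinear ℝ ({p i, p j, p k} : Set (ℝ × ℝ))) :
    (Polygon p → ∀ G H : SimpleGraph (Fin n), InPath p G → InPath p H →
      (∃ k ≤ 2 * n - 5, Steps (Flip p) k G H) ∧
        ∀ u : Fin n, End u G → End u H → ∃ k ≤ 2 * n - 5, Steps (FlipAt p u) k G H) ∧
    (PlanePath p (SimpleGraph.pathGraph n) → ∀ G : SimpleGraph (Fin n), Compat p G →
      Steps (FlipC p G) (G.edgeSet \ (SimpleGraph.pathGraph n).edgeSet).ncard G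
          (SimpleGraph.pathGraph n) ∧
        (∀ k : ℕ, Steps Exch k G (SimpleGraph.pathGraph n) →
          (G.edgeSet \ (SimpleGraph.pathGraph n).edgeSet).ncard ≤ k) ∧
        ∀ u : Fin n, u.val = 0 → End u G →
          Steps (fun A B => FlipC p G A B ∧ End u A ∧ End u B)
            (G.edgeSet \ (SimpleGraph.pathGraph n).edgeSet).ncard G
              (SimpleGraph.pathGraph n)) := by
  refine ⟨fun hR G H hG hH => part1 n hn p hi hc hR G H hG hH, ?_⟩
  intro hpath G hG
  have hgp : GP p := gp_of hi hc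
  have hG' := (compat_iff G).1 hG
  refine ⟨?_, fun k hk => exch_ge hk, ?_⟩
  · exact steps_of_walk (fun A B hA hB hAB =>
      ⟨⟨(compat_iff A).2 hA.1, hA.2⟩, ⟨(compat_iff B).2 hB.1, hB.2⟩, hAB⟩)
      (FPG.path_dist hn hgp hpath G hG')
  · intro u hu hGu
    exact steps_of_walk (fun A B hA hB hAB =>
      ⟨⟨⟨(compat_iff A).2 hA.1, hA.2.1⟩, ⟨(compat_iff B).2 hB.1, hB.2.1⟩, hAB⟩,
        hA.2.2.le, hB.2.2.le⟩)
      (FPG.path_dist0 hn hgp hpath G hG' hu (FPG.nb_one hn hgp hG' hGu))

end Pool.Agent.Results.MP_deef39_co.InscribedPaths
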