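import Pool.Agent.Lib.MP_deef39_co_PR.Fin

/-! # MP_deef39_co: plane spanning paths lying in simple polygons

Polygons are given by cyclic lists `c` of all points. `FPR.Nb c x y`: `x y` is a side of `c`;
`FPR.Polygon p c`: `c` is a simple polygon through all points; `FPR.Sp c a b x y`: going round
`c` from `a` one meets `x`, then `b`, then `y`; `FPR.Within p c G`: no edge of `G` crosses a side
of `c`, and at most one pair of edges of `G` is interleaved on `c` (none if all edges of `G` lie
on or inside `c`, or all on or outside `c`); `FPR.PSP p A`: `A` is a plane spanning path;
`FPR.SIP p A`: moreover, in one of its two directions, every point lies outside of the convex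
hull of the later ones; `FPR.Mon p w c`: `c` consists of two paths which are monotone in the
direction `w`; `FPR.dz p z a b`: orientation of `z`, `a`, `b`; `FPR.Good p c`: `c` is monotone in
some direction `w` (in which no two points have the same coordinate), or `c` is star-shaped
(some point `z` lies strictly to the left of every side), or some suffix independent plane
spanning path is Within `c`; `FPR.Step p c c'`: both are simple polygons through all points, and
some plane spanning path is Within both, or `c'` arises from `c` by replacing two sides by two
other segments (reversing a part of the cyclic order), or by moving one vertex to any other place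
of the cyclic order, or both are Good.
-/

set_option autoImplicit false

namespace Pool.Agent.Results.MP_deef39_co.PolygonPaths

open FPR

theorem result (n : ℕ) (p : Fin n → ℝ × ℝ) (hi : Function.Injective p)
    (hc : ∀ i j k : Fin n, i ≠ j → j ≠ k → i ≠ k →
      ¬ Collinear ℝ ({p i, p j, p k} : Set (ℝ × ℝ)))
    (c c' : List (Fin n)) (hpol : Polygon p c)
    (hstep : Relation.ReflTransGen (Step p) c c') :
    ∀ P : SimpleGraph (Fin n) → Prop,
      (∀ A : SimpleGraph (Fin n), P A ↔
        (A.IsTree ∧ (∀ v : Fin n, (A.neighborSet v).ncard ≤ 2) ∧
          ∀ a b c d : Fin n, A.Adj a b → A.Adj c d → s(a, b) ≠ s(c, d) →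
            ∀ x : ℝ × ℝ, x ∈ segment ℝ (p a) (p b) → x ∈ segment ℝ (p c) (p d) →
              (x = p a ∨ x = p b) ∧ (x = p c ∨ x = p d))) →
      ∀ G H : SimpleGraph (Fin n), P G → P H → Within p c G → Within p c' H →
        Relation.ReflTransGen
          (fun A B : SimpleGraph (Fin n) =>
            P A ∧ P B ∧ (A.edgeSet \ B.edgeSet).ncard = 1 ∧
              (B.edgeSet \ A.edgeSet).ncard = 1)
          G H :=
  final n p hi hc c c' hpol hstep

end Pool.Agent.Results.MP_deef39_co.PolygonPaths
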