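import Pool.Agent.Lib.MP_deef39_co_Dsm.Graph

/-! # MP_deef39_co: tame plane spanning paths lie in one component of the flip graph

`p` is a family of `n` points of the plane in general position; `PSP p A`: the graph `A` is a
plane spanning path; `Flip p A B`: one flip (both as in the frozen statement S11933).
`Traces A l`: `A` is the path which visits the vertices in the order `l`. -/

set_option autoImplicit false

namespace Pool.Agent.Results.MP_deef39_co.TamePaths

open FPW FPW.Dsm

theorem result (n : ℕ) (p : Fin n → ℝ × ℝ) (hi : Function.Injective p)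
    (hc : ∀ i j k : Fin n, i ≠ j → j ≠ k → i ≠ k →
      ¬ Collinear ℝ ({p i, p j, p k} : Set (ℝ × ℝ))) :
    -- any two tame plane spanning paths are joined by flips
    (∀ G H : SimpleGraph (Fin n), PSP p G → PSP p H → Tame p G → Tame p H →
      Relation.ReflTransGen (Flip p) G H) ∧
    -- plane spanning paths with at most one covered vertex, and clean ones, are tame
    (∀ (G : SimpleGraph (Fin n)) (l : List (Fin n)), PSP p G → Traces G l →
      ((∀ x y, Covered p l x → Covered p l y → x = y) → Clean p l) ∧
      (Clean p l → Tame p G)) ∧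
    -- the same with a fixed beginning `V, h`
    (∀ (V N N' : List (Fin n)) (h : Fin n) (G H : SimpleGraph (Fin n)), PSP p G → PSP p H →
      Traces G (V ++ h :: N) → Traces H (V ++ h :: N') → Arm p h N → Arm p h N' →
      p h ∉ convexHull ℝ (p '' {t | t ∈ N}) →
      (∀ v ∈ V, p v ∉ convexHull ℝ (p '' {t | t ∈ h :: N})) →
      Relation.ReflTransGen (fun A B : SimpleGraph (Fin n) =>
        Flip p A B ∧ (∃ m, Traces A (V ++ h :: m)) ∧ ∃ m, Traces B (V ++ h :: m)) G H) := by
  have hgp : GP p := gp_of hi hc
  refine ⟨fun G H hG hH tG tH => tame_conn hgp hG hH tG tH, fun G l hG hl => ⟨fun h =>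
    clean_of_one hl.1 h, fun h => tame_of_clean hgp hG hl h⟩, ?_⟩
  intro V N N' h G H hG hH tG tH aG aH hh hV
  exact fixed_conn hgp hG hH tG tH aG aH hh hV

end Pool.Agent.Results.MP_deef39_co.TamePaths
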